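import Pool.Agent.Helper86.AP.Goals

/-!
# Packet AP-GENA
-/

set_option autoImplicit false

namespace Pool.Agent.Helper89.AP

open FreeGroup Pool.Agent.Helper35.PP Pool.Agent.Helper35.PX Pool.Agent.Helper86.AP
open scoped ENNReal

namespace GENAaux

variable {α : Type}

/-- length of the part of a record. -/
def wt (r : Rec α) : ℕ := 1 + r.2.1 + r.2.2.1 + r.2.2.2.length

lemma rt_lt (A D : List (α × Bool)) (e : Rec α) (h1 : e.2.1 ≤ A.length)
    (h2 : e.2.2.1 ≤ D.length) :
    (rt A D e).length + (lt A D e).length = e.2.1 + e.2.2.1 := by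
  unfold rt lt
  rw [FreeGroup.invRev_length]
  split_ifs with h
  · rw [List.length_take, List.length_take, min_eq_left h1, min_eq_left h2]
  · rw [List.length_take, List.length_take, min_eq_left h1, min_eq_left h2, add_comm]

lemma lin_length (i : α) (A D : List (α × Bool)) (l : List (Rec α))
    (h : ∀ r ∈ l, r.2.1 ≤ A.length ∧ r.2.2.1 ≤ D.length) :
    (lin i A D l).length = (l.map wt).sum := by
  induction l with
  | nil => rfl
  | cons e l ih =>
    have he := h e List.mem_cons_self
    have h1 := rt_lt A D e he.1 he.2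
    have h2 := ih (fun r hr => h r (List.mem_cons_of_mem e hr))
    rw [lin, List.map_cons, List.sum_cons, List.length_append, List.length_append, h2,
      List.length_cons, List.length_append]
    unfold wt
    omega

lemma cyc_length (i : α) (A D : List (α × Bool)) (e : Rec α) (l : List (Rec α))
    (he : e.2.1 ≤ A.length ∧ e.2.2.1 ≤ D.length)
    (h : ∀ r ∈ l, r.2.1 ≤ A.length ∧ r.2.2.1 ≤ D.length) :
    (cyc i A D e l).length = wt e + (l.map wt).sum := by
  have h1 := rt_lt A D e he.1 he.2
  have h2 := lin_length i A D l h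
  unfold cyc
  rw [List.length_append, List.length_append, h2, List.length_cons, List.length_append]
  unfold wt
  omega

/-- the generating function of the lists of records. -/
noncomputable def gf (z : ℝ≥0∞) (Us : List (Set (Rec α))) : ℝ≥0∞ :=
  ∑' L : {L : List (Rec α) // List.Forall₂ (fun r U => r ∈ U) L Us}, z ^ (L.1.map wt).sum

lemma prod_eq (z : ℝ≥0∞) (U : Set (Rec α)) (Us : List (Set (Rec α))) :
    ∑' p : U × {L : List (Rec α) // List.Forall₂ (fun r U => r ∈ U) L Us},
      z ^ (wt (p.1 : Rec α) + (p.2.1.map wt).sum) =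
      (∑' r : U, z ^ wt (r : Rec α)) * gf z Us := by
  simp only [pow_add]
  rw [ENNReal.tsum_prod (f := fun (r : U)
    (L : {L : List (Rec α) // List.Forall₂ (fun r U => r ∈ U) L Us}) =>
      z ^ wt (r : Rec α) * z ^ (L.1.map wt).sum)]
  simp only [ENNReal.tsum_mul_left, ENNReal.tsum_mul_right]
  rfl

lemma gf_le (z : ℝ≥0∞) (Us : List (Set (Rec α))) :
    gf z Us ≤ (Us.map fun U : Set (Rec α) => ∑' r : U, z ^ wt (r : Rec α)).prod := by
  induction Us with
  | nil =>
    unfold gf
    have hs : Function.Surjective (fun _ : Unit =>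
        (⟨[], List.Forall₂.nil⟩ :
          {L : List (Rec α) // List.Forall₂ (fun r (U : Set (Rec α)) => r ∈ U) L []})) := by
      rintro ⟨L, hL⟩
      refine ⟨(), ?_⟩
      cases hL
      rfl
    refine (ENNReal.tsum_le_tsum_comp_of_surjective hs
      (fun L : {L : List (Rec α) // List.Forall₂ (fun r (U : Set (Rec α)) => r ∈ U) L []} =>
        z ^ (L.1.map wt).sum)).trans ?_
    simp
  | cons U Us ih =>
    rw [List.map_cons, List.prod_cons]
    refine le_trans ?_ (mul_le_mul_right ih _)
    rw [← prod_eq]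
    have hs : Function.Surjective (fun p : U × {L : List (Rec α) //
          List.Forall₂ (fun r U => r ∈ U) L Us} =>
        (⟨p.1.1 :: p.2.1, List.Forall₂.cons p.1.2 p.2.2⟩ :
          {L : List (Rec α) // List.Forall₂ (fun r (U : Set (Rec α)) => r ∈ U) L (U :: Us)})) := by
      rintro ⟨L, hL⟩
      cases hL with
      | cons h1 h2 => exact ⟨(⟨_, h1⟩, ⟨_, h2⟩), rfl⟩
    refine (ENNReal.tsum_le_tsum_comp_of_surjective hs
      (fun L : {L : List (Rec α) // List.Forall₂ (fun r (U : Set (Rec α)) => r ∈ U) L (U :: Us)} =>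
        z ^ (L.1.map wt).sum)).trans (le_of_eq ?_)
    refine tsum_congr fun p => ?_
    simp only [List.map_cons, List.sum_cons]

lemma mem_of {L : List (Rec α)} {Us : List (Set (Rec α))}
    (h : List.Forall₂ (fun r U => r ∈ U) L Us) : ∀ r ∈ L, ∃ U ∈ Us, r ∈ U := by
  induction h with
  | nil => intro r hr; exact absurd hr List.not_mem_nil
  | cons h1 _ ih =>
    intro r hr
    rcases List.mem_cons.1 hr with rfl | hr
    · exact ⟨_, List.mem_cons_self, h1⟩
    · obtain ⟨U, hU, hrU⟩ := ih r hr
      exact ⟨U, List.mem_cons_of_mem _ hU, hrU⟩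

end GENAaux

open GENAaux

theorem tGENA : Pool.Agent.Helper86.AP.S_GENA := by
  intro α _ i A D z Us hUs
  cases Us with
  | nil =>
    have : {c | ∃ (e : Rec α) (l : List (Rec α)),
        List.Forall₂ (fun r (U : Set (Rec α)) => r ∈ U) (e :: l) [] ∧ c = cyc i A D e l} = ∅ := by
      rw [Set.eq_empty_iff_forall_notMem]
      rintro c ⟨e, l, h, -⟩
      cases h
    rw [this, W_empty]
    exact zero_le
  | cons U Us =>
    change _ ≤ ((U :: Us).map fun U : Set (Rec α) => ∑' r : U, z ^ wt (r : Rec α)).prod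
    rw [List.map_cons, List.prod_cons]
    refine le_trans ?_ (mul_le_mul_right (gf_le z Us) _)
    rw [← prod_eq]
    have hs : Function.Surjective (fun p : U × {L : List (Rec α) //
          List.Forall₂ (fun r U => r ∈ U) L Us} =>
        (⟨cyc i A D p.1.1 p.2.1, ⟨p.1.1, p.2.1, List.Forall₂.cons p.1.2 p.2.2, rfl⟩⟩ :
          {c | ∃ (e : Rec α) (l : List (Rec α)),
            List.Forall₂ (fun r U => r ∈ U) (e :: l) (U :: Us) ∧ c = cyc i A D e l})) := by
      rintro ⟨c, e, l, hL, rfl⟩
      cases hL with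
      | cons h1 h2 => exact ⟨(⟨_, h1⟩, ⟨_, h2⟩), rfl⟩
    unfold W
    refine (ENNReal.tsum_le_tsum_comp_of_surjective hs
      (fun c : {c | ∃ (e : Rec α) (l : List (Rec α)),
        List.Forall₂ (fun r U => r ∈ U) (e :: l) (U :: Us) ∧ c = cyc i A D e l} =>
        z ^ (c : List (α × Bool)).length)).trans (le_of_eq ?_)
    refine tsum_congr fun p => ?_
    change z ^ (cyc i A D p.1.1 p.2.1).length = _
    rw [cyc_length i A D p.1.1 p.2.1 (hUs U List.mem_cons_self p.1.1 p.1.2)
      (fun r hr => by
        obtain ⟨V, hV, hrV⟩ := mem_of p.2.2 r hr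
        exact hUs V (List.mem_cons_of_mem _ hV) r hrV)]

end Pool.Agent.Helper89.AP
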